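import Pool.Agent.W345.VO.Stm

/-!
Project VO, part HH: Heisenberg relations on the model, values on `ee k`, translation.
-/

set_option autoImplicit false

namespace Pool.Agent.W174.VO

open MvPolynomial Pool.Agent.W345.VO

lemma tri (n : ℤ) : (∃ l : ℕ, n = -(l : ℤ) - 1) ∨ n = 0 ∨ ∃ l : ℕ, n = (l : ℤ) + 1 := by
  rcases lt_trichotomy n 0 with h | h | h
  · exact Or.inl ⟨(-n - 1).toNat, by omega⟩
  · exact Or.inr (Or.inl h)
  · exact Or.inr (Or.inr ⟨(n - 1).toNat, by omega⟩)

lemma pd_comm (i j : ℕ) (p : PP) : pderiv i (pderiv j p) = pderiv j (pderiv i p) := by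
  have h : ⁅(pderiv i : Derivation ℂ PP PP), (pderiv j : Derivation ℂ PP PP)⁆ = 0 := by
    apply MvPolynomial.derivation_ext
    intro k
    rw [Derivation.commutator_apply, pderiv_X, pderiv_X]
    simp only [Derivation.coe_zero, Pi.zero_apply]
    have e1 : ∀ a b c : ℕ, pderiv a ((Pi.single b (1 : PP) : ℕ → PP) c) = 0 := by
      intro a b c
      by_cases hbc : c = b
      · subst hbc
        rw [Pi.single_eq_same]
        exact Derivation.map_one_eq_zero _
      · rw [Pi.single_eq_of_ne hbc, map_zero]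
    rw [e1, e1, sub_zero]
  have h2 := congrArg (fun D : Derivation ℂ PP PP => D p) h
  simp only [Derivation.commutator_apply, Derivation.coe_zero, Pi.zero_apply] at h2
  exact sub_eq_zero.1 h2

lemma pd_mul (l l' : ℕ) (p : PP) :
    pderiv l (X l' * p) = X l' * pderiv l p + (if l' = l then p else 0) := by
  rw [Derivation.leibniz, pderiv_X, smul_eq_mul, smul_eq_mul]
  congr 1
  by_cases h : l' = l
  · subst h
    rw [Pi.single_eq_same, if_pos rfl, mul_one]
  · rw [Pi.single_eq_of_ne h, if_neg h, mul_zero]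

lemma sg_sub (k : ℤ) (p q : PP) :
    (Finsupp.single k p : VV) - Finsupp.single k q = Finsupp.single k (p - q) :=
  (Finsupp.single_sub k p q).symm

/-- commutator of a creation and an annihilation operator -/
lemma np (l l' : ℕ) (k : ℤ) (p : PP) :
    hOp (-(l : ℤ) - 1) (hOp ((l' : ℤ) + 1) (Finsupp.single k p)) -
      hOp ((l' : ℤ) + 1) (hOp (-(l : ℤ) - 1) (Finsupp.single k p)) =
    (if l = l' then -(2 * ((l : ℂ) + 1)) else 0) • (Finsupp.single k p : VV) := by
  rw [hOp_pos, hOp_neg, hOp_neg, hOp_pos, sg_sub, pd_mul]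
  rw [Finsupp.smul_single]
  congr 1
  by_cases h : l = l'
  · subst h
    rw [if_pos rfl, if_pos rfl, smul_add, mul_smul_comm]
    module
  · rw [if_neg h, if_neg h, add_zero, mul_smul_comm, sub_self, zero_smul]

theorem hh_single (m n : ℤ) (k : ℤ) (p : PP) :
    hOp m (hOp n (Finsupp.single k p)) - hOp n (hOp m (Finsupp.single k p)) =
      (if m + n = 0 then 2 * (m : ℂ) else 0) • (Finsupp.single k p : VV) := by
  rcases tri m with ⟨l, rfl⟩ | rfl | ⟨l, rfl⟩ <;> rcases tri n with ⟨l', rfl⟩ | rfl | ⟨l', rfl⟩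
  · rw [hOp_neg, hOp_neg, hOp_neg, hOp_neg, if_neg (by omega), zero_smul,
      mul_left_comm, sub_self]
  · rw [hOp_zero, hOp_neg, hOp_neg, hOp_zero, if_neg (by omega), zero_smul,
      mul_smul_comm, sub_self]
  · rw [np]
    congr 1
    by_cases h : l = l'
    · subst h
      rw [if_pos rfl, if_pos (by ring)]
      push_cast
      ring
    · rw [if_neg h, if_neg (by omega)]
  · rw [hOp_neg, hOp_zero, hOp_zero, hOp_neg, if_neg (by omega), zero_smul,
      mul_smul_comm, sub_self]
  · rw [sub_self, Int.cast_zero, mul_zero, ite_self, zero_smul]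
  · rw [hOp_pos, hOp_zero, hOp_zero, hOp_pos, if_neg (by omega), zero_smul, Derivation.map_smul,
      smul_comm, sub_self]
  · rw [← neg_sub, np, ← neg_smul]
    congr 1
    by_cases h : l' = l
    · subst h
      rw [if_pos rfl, if_pos (by ring)]
      push_cast
      ring
    · rw [if_neg h, if_neg (by omega), neg_zero]
  · rw [hOp_zero, hOp_pos, hOp_pos, hOp_zero, if_neg (by omega), zero_smul, Derivation.map_smul,
      smul_comm, sub_self]
  · rw [hOp_pos, hOp_pos, hOp_pos, hOp_pos, if_neg (by omega), zero_smul, Derivation.map_smul,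
      Derivation.map_smul, pd_comm l' l, smul_comm, sub_self]

theorem hh : S_HH := by
  intro m n v
  have h : (hOp m).comp (hOp n) - (hOp n).comp (hOp m) =
      (if m + n = 0 then 2 * (m : ℂ) else 0) • (LinearMap.id : VV →ₗ[ℂ] VV) := by
    apply ext_single
    intro k p
    exact hh_single m n k p
  exact LinearMap.congr_fun h v

theorem phi_one (ε : ℂ) (m : ℤ) : phi ε m 1 = sz ε m := by
  have h : (1 : Polynomial PP) = Polynomial.monomial 0 1 := rfl
  rw [h, phi_monomial, one_mul, Nat.cast_zero, zero_add]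

theorem bas : S_BAS := by
  refine ⟨?_, ?_, ?_, ?_⟩
  · intro ε n k
    unfold ee
    rw [EE_single, map_one, phi_one]
  · intro k
    unfold ee
    rw [TT_single, Derivation.map_one_eq_zero, zero_add, mul_one]
  · intro k
    unfold ee
    rw [hOp_zero, Finsupp.smul_single]
  · intro k m hm
    obtain ⟨l, rfl⟩ : ∃ l : ℕ, m = (l : ℤ) + 1 := ⟨(m - 1).toNat, by omega⟩
    unfold ee
    rw [hOp_pos, Derivation.map_one_eq_zero, smul_zero, Finsupp.single_zero]

lemma DD_X (i : ℕ) : DD (X i : PP) = C ((i : ℂ) + 1) * X (i + 1) := by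
  unfold DD
  rw [MvPolynomial.mkDerivation_X]

/-- `[DD, d/dX_(j+1)] = -(j+1) d/dX_j` -/
lemma DD_pd (j : ℕ) (p : PP) :
    DD (pderiv (j + 1) p) - pderiv (j + 1) (DD p) = (-((j : ℂ) + 1)) • pderiv j p := by
  have h : ⁅(DD : Derivation ℂ PP PP), (pderiv (j + 1) : Derivation ℂ PP PP)⁆ =
      (-((j : ℂ) + 1)) • (pderiv j : Derivation ℂ PP PP) := by
    apply MvPolynomial.derivation_ext
    intro i
    rw [Derivation.commutator_apply, DD_X, Derivation.smul_apply, pderiv_X, pderiv_X]
    have e1 : ∀ b c : ℕ, DD ((Pi.single b (1 : PP) : ℕ → PP) c) = 0 := by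
      intro b c
      by_cases hbc : c = b
      · subst hbc
        rw [Pi.single_eq_same]
        exact Derivation.map_one_eq_zero _
      · rw [Pi.single_eq_of_ne hbc, map_zero]
    rw [e1, zero_sub, pderiv_C_mul, pderiv_X]
    by_cases hij : i = j
    · subst hij
      rw [Pi.single_eq_same, Pi.single_eq_same, mul_one, smul_eq_C_mul, mul_one, map_neg]
    · rw [Pi.single_eq_of_ne hij, Pi.single_eq_of_ne (by omega), smul_zero, mul_zero, neg_zero]
  have h2 := congrArg (fun D : Derivation ℂ PP PP => D p) h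
  simpa only [Derivation.commutator_apply, Derivation.smul_apply] using h2

lemma DD_pd0 (p : PP) : DD (pderiv 0 p) - pderiv 0 (DD p) = 0 := by
  have h : ⁅(DD : Derivation ℂ PP PP), (pderiv 0 : Derivation ℂ PP PP)⁆ = 0 := by
    apply MvPolynomial.derivation_ext
    intro i
    rw [Derivation.commutator_apply, DD_X, pderiv_X]
    have e1 : ∀ b c : ℕ, DD ((Pi.single b (1 : PP) : ℕ → PP) c) = 0 := by
      intro b c
      by_cases hbc : c = b
      · subst hbc
        rw [Pi.single_eq_same]
        exact Derivation.map_one_eq_zero _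
      · rw [Pi.single_eq_of_ne hbc, map_zero]
    rw [e1, zero_sub, pderiv_C_mul, pderiv_X, Pi.single_eq_of_ne (by omega), mul_zero, neg_zero]
    rfl
  have h2 := congrArg (fun D : Derivation ℂ PP PP => D p) h
  simpa only [Derivation.commutator_apply, Derivation.coe_zero, Pi.zero_apply] using h2

theorem th_single (n : ℤ) (k : ℤ) (p : PP) :
    TT (hOp n (Finsupp.single k p)) - hOp n (TT (Finsupp.single k p)) =
      (-(n : ℂ)) • hOp (n - 1) (Finsupp.single k p : VV) := by
  rcases tri n with ⟨l, rfl⟩ | rfl | ⟨l, rfl⟩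
  · have e : -(l : ℤ) - 1 - 1 = -((l + 1 : ℕ) : ℤ) - 1 := by push_cast; ring
    rw [hOp_neg, TT_single, TT_single, hOp_neg, e, hOp_neg, sg_sub, Finsupp.smul_single]
    congr 1
    rw [Derivation.leibniz, DD_X, smul_eq_mul, smul_eq_mul]
    push_cast
    simp only [smul_eq_C_mul, map_add, map_sub, map_neg, map_one]
    ring
  · rw [hOp_zero, TT_single, TT_single, hOp_zero, sg_sub, Int.cast_zero, neg_zero, zero_smul,
      Derivation.map_smul]
    rw [show (2 * (k : ℂ)) • DD p + (k : ℂ) • (X 0 * (2 * (k : ℂ)) • p) -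
      (2 * (k : ℂ)) • (DD p + (k : ℂ) • (X 0 * p)) = 0 by
        rw [mul_smul_comm]
        module]
    rw [Finsupp.single_zero]
  · rw [hOp_pos, TT_single, TT_single, hOp_pos, sg_sub, Derivation.map_smul, map_add,
      Derivation.map_smul, pd_mul]
    rcases l with _ | j
    · have e : ((0 : ℕ) : ℤ) + 1 - 1 = 0 := by norm_num
      rw [e, hOp_zero, Finsupp.smul_single]
      congr 1
      have h := DD_pd0 p
      rw [sub_eq_zero] at h
      rw [h, if_pos rfl, mul_smul_comm]
      push_cast
      module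
    · have e : ((j + 1 : ℕ) : ℤ) + 1 - 1 = (j : ℤ) + 1 := by push_cast; ring
      rw [e, hOp_pos, Finsupp.smul_single]
      congr 1
      have h := DD_pd j p
      rw [sub_eq_iff_eq_add] at h
      rw [h, if_neg (by omega), mul_smul_comm, add_zero]
      push_cast
      module

theorem th : S_TH := by
  intro n v
  have h : (TT).comp (hOp n) - (hOp n).comp TT = (-(n : ℂ)) • hOp (n - 1) := by
    apply ext_single
    intro k p
    exact th_single n k p
  exact LinearMap.congr_fun h v

end Pool.Agent.W174.VO
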